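import Pool.Agent.X166.GP.Y

/-!
# The stability constant `ω(A)` of Gaussian phase retrieval: the optimal exponential base is `1/4`

`A` is a `(2M-1) × M` matrix with independent standard Gaussian entries.  For every `β ∈ (1/4, 1)`
one has `ω(A) ≤ max_k ‖A_k‖ β^M` with probability tending to `1`; for `β < 1/4` and every `C` the
inequality `ω(A) ≤ C max_k ‖A_k‖ β^M` has probability tending to `0`.

The definitions are in `Pool.Agent.X166.GP.Defs`.
-/

set_option autoImplicit false

noncomputable section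

open MeasureTheory ProbabilityTheory Filter Topology
open Pool.Agent.X166.GP
open scoped ENNReal

namespace Pool.Agent.Results.MP_77e4cc_pr.OptimalBase

/-- `β` is admissible: for some `C > 0`, with probability tending to `1` as `M → ∞`,
`ω(A) ≤ C max_k ‖A_k‖ β^M` for the Gaussian `(2M-1) × M` matrix `A` -/
def Admissible (β : ℝ) : Prop :=
  ∃ C : ℝ, 0 < C ∧ Tendsto (fun M : ℕ =>
    gaussianMatrix (2 * M - 1) M {A | ¬ omega A ≤ C * maxRow A * β ^ M}) atTop (𝓝 0)

theorem result :
    -- every `β` above `1/4` is admissible, with `C = 1`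
    (∀ β : ℝ, 1 / 4 < β → β < 1 → Tendsto (fun M : ℕ =>
      gaussianMatrix (2 * M - 1) M {A | ¬ omega A ≤ maxRow A * β ^ M}) atTop (𝓝 0)) ∧
    -- for `β` below `1/4` the inequality fails with probability tending to `1`, for every `C`
    (∀ β : ℝ, 0 < β → β < 1 / 4 → ∀ C : ℝ, Tendsto (fun M : ℕ =>
      gaussianMatrix (2 * M - 1) M {A | omega A ≤ C * maxRow A * β ^ M}) atTop (𝓝 0)) ∧
    -- the infimum of the admissible `β` is `1/4`
    IsGLB {β : ℝ | 0 < β ∧ β < 1 ∧ Admissible β} (1 / 4) := by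
  have h1 : ∀ β : ℝ, 1 / 4 < β → β < 1 → Tendsto (fun M : ℕ =>
      gaussianMatrix (2 * M - 1) M {A | ¬ omega A ≤ maxRow A * β ^ M}) atTop (𝓝 0) := by
    intro β hβ hβ1
    have h := admissible hβ hβ1
    refine h.congr fun M => ?_
    congr 1
    ext A
    simp only [Set.mem_ofPred_eq, not_le]
  have h2 : ∀ β : ℝ, 0 < β → β < 1 / 4 → ∀ C : ℝ, Tendsto (fun M : ℕ =>
      gaussianMatrix (2 * M - 1) M {A | omega A ≤ C * maxRow A * β ^ M}) atTop (𝓝 0) :=
    fun β hβ hβ1 C => inadmissible hβ hβ1 C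
  refine ⟨h1, h2, ?_, ?_⟩
  · rintro β ⟨hβ0, _, C, _, hC⟩
    by_contra hcon
    push Not at hcon
    have h3 := (h2 β hβ0 hcon C).add hC
    rw [add_zero] at h3
    have h4 : ∀ M : ℕ, (1 : ℝ≥0∞) ≤ gaussianMatrix (2 * M - 1) M {A | omega A ≤ C * maxRow A * β ^ M} +
        gaussianMatrix (2 * M - 1) M {A | ¬ omega A ≤ C * maxRow A * β ^ M} := by
      intro M
      have h5 : gaussianMatrix (2 * M - 1) M Set.univ = 1 := by
        unfold gaussianMatrix
        exact measure_univ
      rw [← h5]
      refine (measure_mono ?_).trans (measure_union_le _ _)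
      intro A _
      exact em _
    have h6 := ge_of_tendsto' h3 h4
    exact absurd h6 (by simp)
  · intro b hb
    by_contra hcon
    push Not at hcon
    obtain ⟨β, hβ1, hβ2⟩ := exists_between (lt_min hcon (show (1/4 : ℝ) < 1 by norm_num))
    have hlt1 : β < 1 := hβ2.trans_le (min_le_right _ _)
    have hltb : β < b := hβ2.trans_le (min_le_left _ _)
    have h3 : β ∈ {β : ℝ | 0 < β ∧ β < 1 ∧ Admissible β} := by
      refine ⟨by linarith, hlt1, 1, one_pos, ?_⟩
      simpa only [one_mul] using h1 β hβ1 hlt1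
    have := hb h3
    linarith

end Pool.Agent.Results.MP_77e4cc_pr.OptimalBase
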