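import Pool.Agent.X88.PR.Low3

/-!
MP_77e4cc_pr: the stability constant `ω(A)` of the Gaussian `(2M-1) × M` matrix is typically
between `4^{-M}` and `M^{1/2} 4^{-M}`.
-/

open MeasureTheory ProbabilityTheory Filter Topology
open scoped ENNReal RealInnerProductSpace

namespace Pool.Agent.Results.MP_77e4cc_pr.TypicalSize

/-- A `(2M-1) × M` real matrix, given by its rows `A 0, A 1, ...`, vectors of `ℝ^M`. -/
abbrev Mat (M : ℕ) := Fin (2 * M - 1) → EuclideanSpace ℝ (Fin M)

/-- The law of the matrix with i.i.d. standard Gaussian entries: the rows are independent and each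
row is a standard Gaussian vector of `ℝ^M`. -/
noncomputable def law (M : ℕ) : Measure (Mat M) :=
  Measure.pi fun _ => stdGaussian (EuclideanSpace ℝ (Fin M))

/-- `σ_M(A_S)`, the `M`-th largest singular value of the submatrix with the rows in `S`:
the minimum over the unit vectors `x` of `‖A_S x‖ = (∑_{i ∈ S} ⟨A_i, x⟩²)^{1/2}`
(it is `0` if `S` has fewer than `M` elements). -/
noncomputable def sigmaM {M : ℕ} (A : Mat M) (S : Finset (Fin (2 * M - 1))) : ℝ :=
  ⨅ x : Metric.sphere (0 : EuclideanSpace ℝ (Fin M)) 1,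
    Real.sqrt (∑ i ∈ S, ⟪A i, (x : EuclideanSpace ℝ (Fin M))⟫ ^ 2)

/-- The rank of the submatrix with the rows outside `S`: the dimension of their span. -/
noncomputable def rankCompl {M : ℕ} (A : Mat M) (S : Finset (Fin (2 * M - 1))) : ℕ :=
  Module.finrank ℝ (Submodule.span ℝ (A '' {i | i ∉ S}))

/-- `ω(A)`: the minimum of `σ_M(A_S)` over the sets `S` of rows with `rank(A_{S^c}) < M`. -/
noncomputable def omega {M : ℕ} (A : Mat M) : ℝ :=
  sInf (sigmaM A '' {S | rankCompl A S < M})

theorem omega_eq {M : ℕ} (A : Mat M) : omega A = X88.PR.om A := by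
  unfold omega X88.PR.om rankCompl
  rw [finrank_euclideanSpace_fin]
  rfl

/-- The typical size of `ω(A)` is between `4^{-M}` and `M^{1/2} 4^{-M}`: for every `η > 0`
there are `δ > 0` and `L` such that for all large `M`, outside an event of probability at most `η`,
`δ 4^{-M} ≤ ω(A) ≤ L M^{1/2} 4^{-M}`. -/
theorem result : ∀ η : ℝ, 0 < η → ∃ δ L : ℝ, 0 < δ ∧ ∀ᶠ M : ℕ in atTop,
    law M {A | ¬ (δ * (1 / 4) ^ M ≤ omega A ∧
      omega A ≤ L * Real.sqrt M * (1 / 4) ^ M)} ≤ ENNReal.ofReal η := by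
  intro η hη
  obtain ⟨L, hL⟩ := X88.PR.up_core3 (η / 2) (by positivity)
  refine ⟨η / 28, L, by positivity, ?_⟩
  filter_upwards [hL, eventually_ge_atTop 1] with M h1 hM
  have h2 := X88.PR.low_core3 M hM (η / 28) (by positivity)
  rw [show 14 * (η / 28) = η / 2 by ring] at h2
  have hsub : {A : Mat M | ¬ (η / 28 * (1 / 4) ^ M ≤ omega A ∧
      omega A ≤ L * Real.sqrt M * (1 / 4) ^ M)} ⊆
      {A | X88.PR.om A < η / 28 * (1 / 4) ^ M} ∪
      {A | L * Real.sqrt M * (1 / 4) ^ M < X88.PR.om A} := by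
    intro A hA
    rw [Set.mem_ofPred_eq, omega_eq, not_and_or, not_le, not_le] at hA
    exact hA
  refine (measure_mono hsub).trans ((measure_union_le _ _).trans ((add_le_add h2 h1).trans ?_))
  rw [← ENNReal.ofReal_add (by positivity) (by positivity), add_halves]

end Pool.Agent.Results.MP_77e4cc_pr.TypicalSize
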